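import Mathlib

/-!
# Field automorphisms of `ℂ` moving a finite algebraically independent family to another one
-/

namespace CohP1.O3

open Cardinal

/-- Isomorphism of algebraically closed fields respecting two transcendence bases. -/
lemma exists_ringEquiv_of_basis {ι κ : Type} {v : ι → ℂ} {w : κ → ℂ} (e : ι ≃ κ)
    (hv : IsTranscendenceBasis ℚ v) (hw : IsTranscendenceBasis ℚ w) :
    ∃ σ : ℂ ≃+* ℂ, ∀ i, σ (v i) = w (e i) := by
  let _ := IsAlgClosed.isAlgClosure_of_transcendence_basis v hv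
  let _ := IsAlgClosed.isAlgClosure_of_transcendence_basis w hw
  let e1 : Algebra.adjoin ℚ (Set.range v) ≃+* Algebra.adjoin ℚ (Set.range w) :=
    (hv.1.aevalEquiv.symm.trans ((MvPolynomial.renameEquiv ℚ e).trans
      hw.1.aevalEquiv)).toRingEquiv
  refine ⟨IsAlgClosure.equivOfEquiv ℂ ℂ e1, fun i => ?_⟩
  have h1 : v i = algebraMap (Algebra.adjoin ℚ (Set.range v)) ℂ
      (hv.1.aevalEquiv (MvPolynomial.X i)) := by
    simp
  rw [h1, IsAlgClosure.equivOfEquiv_algebraMap]
  simp only [e1, AlgEquiv.coe_ringEquiv, AlgEquiv.trans_apply,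
    AlgEquiv.symm_apply_apply, MvPolynomial.renameEquiv_apply, MvPolynomial.rename_X]
  simp

/-- A transcendence basis extending a given algebraically independent family. -/
lemma exists_basis_superset {ι : Type} {p : ι → ℂ} (hp : AlgebraicIndependent ℚ p) :
    ∃ t : Set ℂ, Set.range p ⊆ t ∧ IsTranscendenceBasis ℚ ((↑) : t → ℂ) := by
  exact exists_isTranscendenceBasis_superset hp.coe_range

lemma card_basis {t : Set ℂ} (ht : IsTranscendenceBasis ℚ ((↑) : t → ℂ)) : #t = #ℂ := by
  rw [IsAlgClosed.cardinal_eq_cardinal_transcendence_basis_of_aleph0_lt' _ ht (by simp)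
    (by rw [Cardinal.mk_complex]; exact Cardinal.aleph0_lt_continuum)]

theorem exists_ringEquiv {ι : Type} [Finite ι] {p q : ι → ℂ} (hp : AlgebraicIndependent ℚ p)
    (hq : AlgebraicIndependent ℚ q) : ∃ σ : ℂ ≃+* ℂ, ∀ i, σ (p i) = q i := by
  obtain ⟨s, hps, hs⟩ := exists_basis_superset hp
  obtain ⟨t, hqt, ht⟩ := exists_basis_superset hq
  have hcs := card_basis hs
  have hct := card_basis ht
  let p' : ι → s := fun i => ⟨p i, hps ⟨i, rfl⟩⟩
  let q' : ι → t := fun i => ⟨q i, hqt ⟨i, rfl⟩⟩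
  have hp' : Function.Injective p' := fun i j h => hp.injective (congrArg Subtype.val h)
  have hq' : Function.Injective q' := fun i j h => hq.injective (congrArg Subtype.val h)
  let e0 := Equiv.ofInjective p' hp'
  let f : Set.range p' ↪ t := ⟨fun x => q' (e0.symm x), fun x y h => e0.symm.injective (hq' h)⟩
  have hfin : #(Set.range p') < #s := by
    refine lt_of_lt_of_le (Cardinal.lt_aleph0_of_finite _) ?_
    rw [hcs, Cardinal.mk_complex]
    exact Cardinal.aleph0_le_continuum
  have hne : Nonempty (s ≃ t) := Cardinal.eq.1 (hcs.trans hct.symm)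
  obtain ⟨g, hg⟩ := Cardinal.extend_function_of_lt f hfin hne
  obtain ⟨σ, hσ⟩ := exists_ringEquiv_of_basis g hs ht
  refine ⟨σ, fun i => ?_⟩
  have h1 := hσ (p' i)
  have h2 := hg ⟨p' i, ⟨i, rfl⟩⟩
  have h3 : e0.symm ⟨p' i, ⟨i, rfl⟩⟩ = i := by
    rw [Equiv.symm_apply_eq]
    rfl
  have h4 : g (p' i) = q' i := by
    rw [h2]
    show q' (e0.symm ⟨p' i, ⟨i, rfl⟩⟩) = q' i
    rw [h3]
  rw [h4] at h1
  exact h1

end CohP1.O3
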