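import Pool.Agent.Lib_helper87.Coh.Defs
import Pool.Agent.Lib_helper11.Coh.Auto

/-!
# Block O3: generic representations of the same type have subrepresentations of the same types
-/

namespace CohP1.O3

open Module Matrix

/-- The matrix of an injective map stays injective after applying a field homomorphism. -/
lemma toLin'_map_injective {m n : ℕ} (σ : ℂ →+* ℂ) {E : Matrix (Fin m) (Fin n) ℂ}
    {L : Matrix (Fin n) (Fin m) ℂ} (h : L * E = 1) :
    Function.Injective (Matrix.toLin' (E.map σ)) := by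
  have h1 : (L.map σ) * (E.map σ) = 1 := by
    rw [← Matrix.map_mul, h]
    exact Matrix.map_one _ (map_zero σ) (map_one σ)
  intro a b hab
  have h2 : Matrix.toLin' (L.map σ) (Matrix.toLin' (E.map σ) a) =
      Matrix.toLin' (L.map σ) (Matrix.toLin' (E.map σ) b) := by rw [hab]
  rw [← Matrix.toLin'_mul_apply, ← Matrix.toLin'_mul_apply, h1, Matrix.toLin'_one] at h2
  exact h2

/-- The matrix of a map into coordinate space. -/
noncomputable abbrev mat {m : ℕ} {X : Type} [AddCommGroup X] [Module ℂ X] [FiniteDimensional ℂ X]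
    (f : X →ₗ[ℂ] (Fin m → ℂ)) : Matrix (Fin m) (Fin (finrank ℂ X)) ℂ :=
  LinearMap.toMatrix (finBasis ℂ X) (Pi.basisFun ℂ (Fin m)) f

lemma exists_left {m : ℕ} {X : Type} [AddCommGroup X] [Module ℂ X] [FiniteDimensional ℂ X]
    {f : X →ₗ[ℂ] (Fin m → ℂ)} (hf : Function.Injective f) :
    ∃ L : Matrix (Fin (finrank ℂ X)) (Fin m) ℂ, L * mat f = 1 := by
  obtain ⟨g, hg⟩ := f.exists_leftInverse_of_injective (LinearMap.ker_eq_bot.2 hf)
  refine ⟨LinearMap.toMatrix (Pi.basisFun ℂ (Fin m)) (finBasis ℂ X) g, ?_⟩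
  rw [mat, ← LinearMap.toMatrix_comp, hg, LinearMap.toMatrix_id]

/-- Matrix form of a commutative square. -/
lemma square {m n : ℕ} {X Y : Type} [AddCommGroup X] [Module ℂ X] [FiniteDimensional ℂ X]
    [AddCommGroup Y] [Module ℂ Y] [FiniteDimensional ℂ Y]
    {i : X →ₗ[ℂ] (Fin m → ℂ)} {j : Y →ₗ[ℂ] (Fin n → ℂ)} {F : X →ₗ[ℂ] Y}
    {P : Matrix (Fin n) (Fin m) ℂ} (h : j ∘ₗ F = Matrix.toLin' P ∘ₗ i) :
    mat j * LinearMap.toMatrix (finBasis ℂ X) (finBasis ℂ Y) F = P * mat i := by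
  rw [mat, mat, ← LinearMap.toMatrix_comp, h,
    LinearMap.toMatrix_comp _ (Pi.basisFun ℂ (Fin m)) _]
  congr 1
  rw [← Matrix.toLin_eq_toLin', LinearMap.toMatrix_toLin]

lemma square_map {m n a b : ℕ} (σ : ℂ →+* ℂ) {J : Matrix (Fin n) (Fin b) ℂ}
    {F : Matrix (Fin b) (Fin a) ℂ} {P : Matrix (Fin n) (Fin m) ℂ} {I : Matrix (Fin m) (Fin a) ℂ}
    (h : J * F = P * I) :
    Matrix.toLin' (J.map σ) ∘ₗ Matrix.toLin' (F.map σ) =
      Matrix.toLin' (P.map σ) ∘ₗ Matrix.toLin' (I.map σ) := by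
  rw [← Matrix.toLin'_mul, ← Matrix.toLin'_mul, ← Matrix.map_mul, ← Matrix.map_mul, h]

end CohP1.O3

namespace CohP1

open Module Matrix O3

/-- BLOCK O3: field automorphisms of `ℂ`. -/
theorem gen_alike {k w u : ℕ} {p q : Idx k w u → ℂ} (hp : Gen p) (hq : Gen q) {A : QRep}
    (i : Hom A (ofCoord p)) (hi : i.Inj) :
    ∃ (A' : QRep) (i' : Hom A' (ofCoord q)), i'.Inj ∧ A'.ty = A.ty := by
  obtain ⟨σ, hσ⟩ := exists_ringEquiv hp hq
  obtain ⟨iv, iw, iu, hf, hx, hy⟩ := i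
  obtain ⟨h1, h2, h3⟩ := hi
  let iv' : A.V →ₗ[ℂ] (Fin k → ℂ) := iv
  let iw' : A.W →ₗ[ℂ] (Fin w → ℂ) := iw
  let iu' : A.U →ₗ[ℂ] (Fin u → ℂ) := iu
  have hf' : iw' ∘ₗ A.f = Matrix.toLin' (Matrix.of fun i j => p (Sum.inl (i, j))) ∘ₗ iv' := hf
  have hx' : iw' ∘ₗ A.x = Matrix.toLin' (Matrix.of fun i j => p (Sum.inr (Sum.inl (i, j)))) ∘ₗ iu' :=
    hx
  have hy' : iw' ∘ₗ A.y = Matrix.toLin' (Matrix.of fun i j => p (Sum.inr (Sum.inr (i, j)))) ∘ₗ iu' :=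
    hy
  obtain ⟨Lv, hLv⟩ := exists_left (f := iv') h1
  obtain ⟨Lw, hLw⟩ := exists_left (f := iw') h2
  obtain ⟨Lu, hLu⟩ := exists_left (f := iu') h3
  have e1 := square_map (σ : ℂ →+* ℂ) (square hf')
  have e2 := square_map (σ : ℂ →+* ℂ) (square hx')
  have e3 := square_map (σ : ℂ →+* ℂ) (square hy')
  have q1 : (Matrix.of fun i j => p (Sum.inl (i, j)) : Matrix (Fin w) (Fin k) ℂ).map
      (σ : ℂ →+* ℂ) = Matrix.of fun i j => q (Sum.inl (i, j)) := by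
    ext a b; simp [hσ]
  have q2 : (Matrix.of fun i j => p (Sum.inr (Sum.inl (i, j))) : Matrix (Fin w) (Fin u) ℂ).map
      (σ : ℂ →+* ℂ) = Matrix.of fun i j => q (Sum.inr (Sum.inl (i, j))) := by
    ext a b; simp [hσ]
  have q3 : (Matrix.of fun i j => p (Sum.inr (Sum.inr (i, j))) : Matrix (Fin w) (Fin u) ℂ).map
      (σ : ℂ →+* ℂ) = Matrix.of fun i j => q (Sum.inr (Sum.inr (i, j))) := by
    ext a b; simp [hσ]
  rw [q1] at e1
  rw [q2] at e2
  rw [q3] at e3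
  let A' : QRep :=
    { V := Fin (finrank ℂ A.V) → ℂ
      W := Fin (finrank ℂ A.W) → ℂ
      U := Fin (finrank ℂ A.U) → ℂ
      f := Matrix.toLin' ((LinearMap.toMatrix (finBasis ℂ A.V) (finBasis ℂ A.W) A.f).map
        (σ : ℂ →+* ℂ))
      x := Matrix.toLin' ((LinearMap.toMatrix (finBasis ℂ A.U) (finBasis ℂ A.W) A.x).map
        (σ : ℂ →+* ℂ))
      y := Matrix.toLin' ((LinearMap.toMatrix (finBasis ℂ A.U) (finBasis ℂ A.W) A.y).map
        (σ : ℂ →+* ℂ)) }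
  let i' : Hom A' (ofCoord q) :=
    { v := Matrix.toLin' ((mat iv').map (σ : ℂ →+* ℂ))
      w := Matrix.toLin' ((mat iw').map (σ : ℂ →+* ℂ))
      u := Matrix.toLin' ((mat iu').map (σ : ℂ →+* ℂ))
      hf := e1
      hx := e2
      hy := e3 }
  refine ⟨A', i', ⟨toLin'_map_injective _ hLv, toLin'_map_injective _ hLw,
    toLin'_map_injective _ hLu⟩, ?_⟩
  show ((finrank ℂ (Fin (finrank ℂ A.V) → ℂ) : ℤ), (finrank ℂ (Fin (finrank ℂ A.W) → ℂ) : ℤ),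
    (finrank ℂ (Fin (finrank ℂ A.U) → ℂ) : ℤ)) = A.ty
  simp [QRep.ty]

end CohP1
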