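import Pool.Agent.Lib_helper87.Coh.Defs
import Pool.Agent.Lib_helper11.Coh.O3

/-!
# Block O4: two non-isomorphic generic representations
-/

namespace CohP1.O4

open Module Matrix

/-- An algebraically independent family in a field generated by `S` has at most `#S` members. -/
lemma card_le {ι : Type} [Finite ι] {x : ι → ℂ} (hx : AlgebraicIndependent ℚ x)
    {S : Set ℂ} (h : ∀ i, x i ∈ IntermediateField.adjoin ℚ S) : (Nat.card ι : ℕ∞) ≤ S.encard := by
  have hind : (AlgebraicIndependent.matroid ℚ ℂ).Indep (Set.range x) :=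
    AlgebraicIndependent.matroid_indep_iff.2 hx.coe_range
  have hsub : Set.range x ⊆ (AlgebraicIndependent.matroid ℚ ℂ).closure S := by
    rintro _ ⟨i, rfl⟩
    rw [AlgebraicIndependent.matroid_closure_eq]
    obtain ⟨r, hr, s, hs, hrs⟩ := IntermediateField.mem_adjoin_iff_div.1 (h i)
    rw [SetLike.mem_coe, Subalgebra.mem_algebraicClosure, hrs, div_eq_mul_inv]
    have h1 : IsAlgebraic (Algebra.adjoin ℚ S) r :=
      isAlgebraic_algebraMap (⟨r, hr⟩ : Algebra.adjoin ℚ S)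
    have h2 : IsAlgebraic (Algebra.adjoin ℚ S) s :=
      isAlgebraic_algebraMap (⟨s, hs⟩ : Algebra.adjoin ℚ S)
    exact h1.mul h2.inv
  have h1 : (Set.range x).encard = (Nat.card ι : ℕ∞) := by
    rw [← Set.image_univ, hx.injective.encard_image, Set.encard_univ, ENat.card_eq_coe_natCard]
  rw [← h1, ← hind.eRk_eq_encard]
  calc (AlgebraicIndependent.matroid ℚ ℂ).eRk (Set.range x)
      ≤ (AlgebraicIndependent.matroid ℚ ℂ).eRk
          ((AlgebraicIndependent.matroid ℚ ℂ).closure S) := Matroid.eRk_mono _ hsub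
    _ = (AlgebraicIndependent.matroid ℚ ℂ).eRk S := Matroid.eRk_closure_eq _ _
    _ ≤ S.encard := Matroid.eRk_le_encard _ _

/-- There are finite algebraically independent families of any size. -/
lemma exists_indep (ι : Type) [Finite ι] : ∃ x : ι → ℂ, AlgebraicIndependent ℚ x := by
  obtain ⟨t, ht⟩ := exists_isTranscendenceBasis ℚ ℂ
  have hct := O3.card_basis ht
  have hle : Cardinal.mk ι ≤ Cardinal.mk t := by
    refine (Cardinal.lt_aleph0_of_finite _).le.trans ?_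
    rw [hct, Cardinal.mk_complex]
    exact Cardinal.aleph0_le_continuum
  obtain ⟨e⟩ := hle
  exact ⟨fun i => (e i : ℂ), ht.1.comp e e.injective⟩

/-- Solving `Q * H = G * P` inside a subfield. -/
lemma mem_of_eq {K : IntermediateField ℚ ℂ} {m n : ℕ} {Q P : Matrix (Fin m) (Fin n) ℂ}
    {H L : Matrix (Fin n) (Fin n) ℂ} {G : Matrix (Fin m) (Fin m) ℂ} (h : G * P = Q * H)
    (hL : L * H = 1) (hH : ∀ i j, H i j ∈ K) (hG : ∀ i j, G i j ∈ K) (hP : ∀ i j, P i j ∈ K) :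
    ∀ i j, Q i j ∈ K := by
  let H' : Matrix (Fin n) (Fin n) K := Matrix.of fun i j => ⟨H i j, hH i j⟩
  let G' : Matrix (Fin m) (Fin m) K := Matrix.of fun i j => ⟨G i j, hG i j⟩
  let P' : Matrix (Fin m) (Fin n) K := Matrix.of fun i j => ⟨P i j, hP i j⟩
  have eH : H'.map (algebraMap K ℂ) = H := by ext i j; rfl
  have eG : G'.map (algebraMap K ℂ) = G := by ext i j; rfl
  have eP : P'.map (algebraMap K ℂ) = P := by ext i j; rfl
  have hdet : H'.det ≠ 0 := by
    intro h0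
    have h1 : H.det = 0 := by
      rw [← eH, ← RingHom.mapMatrix_apply, ← RingHom.map_det, h0, map_zero]
    have h2 : (L * H).det = 1 := by rw [hL, Matrix.det_one]
    rw [Matrix.det_mul, h1, mul_zero] at h2
    exact zero_ne_one h2
  have hinv : H' * H'⁻¹ = 1 := Matrix.mul_nonsing_inv _ (isUnit_iff_ne_zero.2 hdet)
  have h3 : H * (H'⁻¹).map (algebraMap K ℂ) = 1 := by
    conv_lhs => rw [← eH]
    rw [← Matrix.map_mul, hinv]
    exact Matrix.map_one _ (map_zero _) (map_one _)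
  have h4 : Q = (G' * P' * H'⁻¹).map (algebraMap K ℂ) := by
    rw [Matrix.map_mul, Matrix.map_mul, eG, eP, h, Matrix.mul_assoc, h3, Matrix.mul_one]
  intro i j
  rw [h4]
  exact ((G' * P' * H'⁻¹) i j).2

/-- The index set of the entries of an endomorphism. -/
abbrev Jdx (k w u : ℕ) := (Fin k × Fin k) ⊕ (Fin w × Fin w) ⊕ (Fin u × Fin u)

lemma not_iso {k w u : ℕ} (hc : k * k + w * w + u * u ≤ w * k + 2 * (w * u))
    {p q : Idx k w u → ℂ} (hpq : AlgebraicIndependent ℚ (Sum.elim p q))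
    (z : Jdx k w u → ℂ) (j0 : Jdx k w u) (hz : z j0 = 1)
    (hq : ∀ K : IntermediateField ℚ ℂ, (∀ i, p i ∈ K) → (∀ j, z j ∈ K) → ∀ i, q i ∈ K) :
    False := by
  classical
  let S : Set ℂ := Set.range p ∪ z '' {j0}ᶜ
  have hp : ∀ i, p i ∈ IntermediateField.adjoin ℚ S := fun i =>
    IntermediateField.subset_adjoin _ _ (Or.inl ⟨i, rfl⟩)
  have hz' : ∀ j, z j ∈ IntermediateField.adjoin ℚ S := by
    intro j
    by_cases hj : j = j0
    · rw [hj, hz]
      exact one_mem _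
    · exact IntermediateField.subset_adjoin _ _ (Or.inr ⟨j, hj, rfl⟩)
  have hq' := hq _ hp hz'
  have h1 := card_le (S := S) hpq (by
    rintro (i | i)
    · exact hp i
    · exact hq' i)
  have h2 : S.encard ≤ ((Nat.card (Idx k w u) + (Nat.card (Jdx k w u) - 1) : ℕ) : ℕ∞) := by
    refine (Set.encard_union_le _ _).trans ?_
    rw [Nat.cast_add]
    refine add_le_add ?_ ?_
    · rw [← Set.image_univ]
      refine (Set.encard_image_le _ _).trans ?_
      rw [Set.encard_univ, ENat.card_eq_coe_natCard]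
    · refine (Set.encard_image_le _ _).trans ?_
      rw [← Set.Finite.cast_ncard_eq (Set.toFinite _), Set.ncard_compl, Set.ncard_singleton]
  have h3 := h1.trans h2
  rw [Nat.cast_le] at h3
  have h4 : Nat.card (Idx k w u) = w * k + 2 * (w * u) := by
    simp only [Nat.card_eq_fintype_card, Fintype.card_sum, Fintype.card_prod, Fintype.card_fin]
    ring
  have h5 : Nat.card (Jdx k w u) = k * k + w * w + u * u := by
    simp only [Nat.card_eq_fintype_card, Fintype.card_sum, Fintype.card_prod, Fintype.card_fin]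
    ring
  have h6 : Nat.card (Idx k w u ⊕ Idx k w u) = 2 * (w * k + 2 * (w * u)) := by
    rw [Nat.card_sum, h4]; ring
  have h7 : 0 < Nat.card (Jdx k w u) := Nat.card_pos_iff.2 ⟨⟨j0⟩, inferInstance⟩
  rw [h6, h4, h5] at h3
  rw [h5] at h7
  omega

lemma exists_left' {n : ℕ} {f : (Fin n → ℂ) →ₗ[ℂ] (Fin n → ℂ)} (hf : Function.Injective f) :
    ∃ L : Matrix (Fin n) (Fin n) ℂ, L * LinearMap.toMatrix' f = 1 := by
  obtain ⟨g, hg⟩ := f.exists_leftInverse_of_injective (LinearMap.ker_eq_bot.2 hf)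
  refine ⟨LinearMap.toMatrix' g, ?_⟩
  rw [← LinearMap.toMatrix'_comp, hg, LinearMap.toMatrix'_id]

lemma square' {m n : ℕ} {G : (Fin m → ℂ) →ₗ[ℂ] (Fin m → ℂ)} {F : (Fin n → ℂ) →ₗ[ℂ] (Fin n → ℂ)}
    {P Q : Matrix (Fin m) (Fin n) ℂ} (h : G ∘ₗ Matrix.toLin' P = Matrix.toLin' Q ∘ₗ F) :
    LinearMap.toMatrix' G * P = Q * LinearMap.toMatrix' F := by
  have h1 := congrArg LinearMap.toMatrix' h
  rwa [LinearMap.toMatrix'_comp, LinearMap.toMatrix'_comp, LinearMap.toMatrix'_toLin',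
    LinearMap.toMatrix'_toLin'] at h1

lemma size_zero {n : ℕ} {L H : Matrix (Fin n) (Fin n) ℂ} (h : L * H = 1) (h0 : H = 0) : n = 0 := by
  rw [h0, Matrix.mul_zero] at h
  by_contra hn
  have h1 := congrFun (congrFun h ⟨0, Nat.pos_of_ne_zero hn⟩) ⟨0, Nat.pos_of_ne_zero hn⟩
  simp at h1

lemma scale_eq {m n : ℕ} (c : ℂ) {Q P : Matrix (Fin m) (Fin n) ℂ}
    {H : Matrix (Fin n) (Fin n) ℂ} {G : Matrix (Fin m) (Fin m) ℂ} (h : G * P = Q * H) :
    (c • G) * P = Q * (c • H) := by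
  rw [Matrix.smul_mul, Matrix.mul_smul, h]

lemma scale_left {n : ℕ} {c : ℂ} (hc : c ≠ 0) {L H : Matrix (Fin n) (Fin n) ℂ} (h : L * H = 1) :
    (c⁻¹ • L) * (c • H) = 1 := by
  rw [Matrix.smul_mul, Matrix.mul_smul, h, smul_smul, inv_mul_cancel₀ hc, one_smul]

end CohP1.O4

namespace CohP1

open Module Matrix O4

/-- BLOCK O4: two non-isomorphic generic representations of a type with `chi ≤ 0`. -/
theorem exists_nonIso {k w u : ℕ} (h0 : (k, w, u) ≠ ((0, 0, 0) : ℕ × ℕ × ℕ))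
    (hc : chi ((k : ℤ), (w : ℤ), (u : ℤ)) ((k : ℤ), (w : ℤ), (u : ℤ)) ≤ 0) :
    ∃ p q : Idx k w u → ℂ, Gen p ∧ Gen q ∧ ¬ ∃ h : Hom (ofCoord p) (ofCoord q), h.Inj ∧ h.Surj := by
  have hc' : k * k + w * w + u * u ≤ w * k + 2 * (w * u) := by
    simp only [chi] at hc
    zify
    nlinarith [hc]
  obtain ⟨x, hx⟩ := exists_indep (Idx k w u ⊕ Idx k w u)
  let p : Idx k w u → ℂ := fun i => x (Sum.inl i)
  let q : Idx k w u → ℂ := fun i => x (Sum.inr i)
  have hpq : AlgebraicIndependent ℚ (Sum.elim p q) := by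
    have : Sum.elim p q = x := by
      ext i; rcases i with i | i <;> rfl
    rw [this]; exact hx
  refine ⟨p, q, hx.comp _ Sum.inl_injective, hx.comp _ Sum.inr_injective, ?_⟩
  rintro ⟨⟨iv, iw, iu, hf, hxx, hyy⟩, ⟨i1, i2, i3⟩, -⟩
  let iv' : (Fin k → ℂ) →ₗ[ℂ] (Fin k → ℂ) := iv
  let iw' : (Fin w → ℂ) →ₗ[ℂ] (Fin w → ℂ) := iw
  let iu' : (Fin u → ℂ) →ₗ[ℂ] (Fin u → ℂ) := iu
  let H1 := LinearMap.toMatrix' iv'
  let H2 := LinearMap.toMatrix' iw'
  let H3 := LinearMap.toMatrix' iu'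
  obtain ⟨L1, hL1⟩ := exists_left' (f := iv') i1
  obtain ⟨L2, hL2⟩ := exists_left' (f := iw') i2
  obtain ⟨L3, hL3⟩ := exists_left' (f := iu') i3
  have e1 : H2 * (Matrix.of fun i j => p (Sum.inl (i, j))) =
      (Matrix.of fun i j => q (Sum.inl (i, j))) * H1 := square' hf
  have e2 : H2 * (Matrix.of fun i j => p (Sum.inr (Sum.inl (i, j)))) =
      (Matrix.of fun i j => q (Sum.inr (Sum.inl (i, j)))) * H3 := square' hxx
  have e3 : H2 * (Matrix.of fun i j => p (Sum.inr (Sum.inr (i, j)))) =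
      (Matrix.of fun i j => q (Sum.inr (Sum.inr (i, j)))) * H3 := square' hyy
  let Z0 : Jdx k w u → ℂ := Sum.elim (fun a => H1 a.1 a.2)
    (Sum.elim (fun a => H2 a.1 a.2) (fun a => H3 a.1 a.2))
  have hex : ∃ j0, Z0 j0 ≠ 0 := by
    by_contra hall
    push Not at hall
    have z1 : H1 = 0 := by ext i j; exact hall (Sum.inl (i, j))
    have z2 : H2 = 0 := by ext i j; exact hall (Sum.inr (Sum.inl (i, j)))
    have z3 : H3 = 0 := by ext i j; exact hall (Sum.inr (Sum.inr (i, j)))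
    have k0 := size_zero (n := k) (hL1 : L1 * H1 = 1) z1
    have w0 := size_zero (n := w) (hL2 : L2 * H2 = 1) z2
    have u0 := size_zero (n := u) (hL3 : L3 * H3 = 1) z3
    exact h0 (by rw [k0, w0, u0])
  obtain ⟨j0, hj0⟩ := hex
  set c : ℂ := (Z0 j0)⁻¹ with hcdef
  have hc0 : c ≠ 0 := inv_ne_zero hj0
  refine not_iso hc' hpq (fun j => c * Z0 j) j0 (inv_mul_cancel₀ hj0) ?_
  intro K hpK hzK
  have m1 : ∀ i j, (c • H1) i j ∈ K := fun i j => hzK (Sum.inl (i, j))
  have m2 : ∀ i j, (c • H2) i j ∈ K := fun i j => hzK (Sum.inr (Sum.inl (i, j)))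
  have m3 : ∀ i j, (c • H3) i j ∈ K := fun i j => hzK (Sum.inr (Sum.inr (i, j)))
  have r1 := mem_of_eq (K := K) (scale_eq c e1) (scale_left hc0 hL1) m1 m2
    (fun i j => hpK (Sum.inl (i, j)))
  have r2 := mem_of_eq (K := K) (scale_eq c e2) (scale_left hc0 hL3) m3 m2
    (fun i j => hpK (Sum.inr (Sum.inl (i, j))))
  have r3 := mem_of_eq (K := K) (scale_eq c e3) (scale_left hc0 hL3) m3 m2
    (fun i j => hpK (Sum.inr (Sum.inr (i, j))))
  rintro (⟨i, j⟩ | ⟨i, j⟩ | ⟨i, j⟩)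
  · exact r1 i j
  · exact r2 i j
  · exact r3 i j

end CohP1
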